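import Mathlib
import Pool.Agent.MP_fed7c7_lc.H93.Spec

set_option autoImplicit false

/-!
The high digits of `((2r+2)^2 + B) * num ^ 2`.
-/

namespace Pool.Agent.MP_fed7c7_lc.H15

open Finset Pool.Agent.MP_fed7c7_lc.H93

theorem dig_sum {B : ℕ} (D : ℕ) : ∀ (c : ℕ → ℕ), (∀ i, c i < B) → ∀ j, j < D →
    dig B (∑ i ∈ range D, c i * B ^ i) j = c j := by
  induction D with
  | zero => intro c _ j hj; omega
  | succ D ih =>
    intro c hc j hj
    have hB : 0 < B := lt_of_le_of_lt (Nat.zero_le _) (hc 0)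
    have e : ∑ i ∈ range (D + 1), c i * B ^ i = c 0 + B * ∑ i ∈ range D, c (i + 1) * B ^ i := by
      rw [sum_range_succ', mul_sum, add_comm]
      congr 1
      · simp
      · exact sum_congr rfl fun i _ => by ring
    rw [e]
    rcases j with _ | j
    · rw [dig_zero, Nat.add_mul_mod_self_left, Nat.mod_eq_of_lt (hc 0)]
    · rw [dig_succ, Nat.add_mul_div_left _ _ hB, Nat.div_eq_of_lt (hc 0), zero_add]
      exact ih (fun i => c (i + 1)) (fun i => hc _) j (by omega)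

theorem dig_high {B : ℕ} (q D L : ℕ) (c : ℕ → ℕ) (hc : ∀ i, c i < B)
    (hL : ∑ i ∈ range q, c i * B ^ i + L < B ^ q) (j : ℕ) (hj : j < D) :
    dig B (∑ i ∈ range (q + D), c i * B ^ i + L) (q + j) = c (q + j) := by
  have hB : 0 < B := lt_of_le_of_lt (Nat.zero_le _) (hc 0)
  have e : ∑ i ∈ range (q + D), c i * B ^ i + L =
      (∑ i ∈ range q, c i * B ^ i + L) + B ^ q * ∑ i ∈ range D, c (q + i) * B ^ i := by
    rw [sum_range_add, mul_sum]
    have : ∀ i ∈ range D, c (q + i) * B ^ (q + i) = B ^ q * (c (q + i) * B ^ i) :=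
      fun i _ => by ring
    rw [sum_congr rfl this]; ring
  rw [← dig_div, e, Nat.add_mul_div_left _ _ (pow_pos hB q), Nat.div_eq_of_lt hL, zero_add]
  exact dig_sum D (fun i => c (q + i)) (fun i => hc _) j hj

theorem sh_sum (B s E D : ℕ) (F : ℕ → ℕ) (hF : ∀ i, E ≤ i → F i = 0) (hD : s + E ≤ D) :
    ∑ i ∈ range D, sh s F i * B ^ i = B ^ s * ∑ i ∈ range E, F i * B ^ i := by
  obtain ⟨D', rfl⟩ : ∃ D', D = s + (E + D') := ⟨D - s - E, by omega⟩
  rw [sum_range_add, sum_range_add, mul_sum]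
  have h1 : ∑ i ∈ range s, sh s F i * B ^ i = 0 := sum_eq_zero fun i hi => by
    have := mem_range.1 hi
    simp [sh, show ¬ s ≤ i by omega]
  have h2 : ∑ i ∈ range D', sh s F (s + (E + i)) * B ^ (s + (E + i)) = 0 :=
    sum_eq_zero fun i _ => by
      have : F (E + i) = 0 := hF _ (by omega)
      simp [sh, this]
  rw [h1, h2, zero_add, add_zero]
  exact sum_congr rfl fun i _ => by simp [sh]; ring

theorem ite_sum (B a c D : ℕ) (h : a < D) :
    ∑ i ∈ range D, (if i = a then c else 0) * B ^ i = c * B ^ a := by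
  rw [sum_eq_single a]
  · simp
  · intro b _ hb; simp [hb]
  · intro h'; exact absurd (mem_range.2 h) h'

theorem geo_le {B : ℕ} (hB : 2 ≤ B) (C : ℕ) (c : ℕ → ℕ) (n : ℕ) (hc : ∀ i, i ≤ n → c i ≤ C) :
    ∑ i ∈ range (n + 1), c i * B ^ i ≤ 2 * C * B ^ n := by
  induction n with
  | zero => simpa using le_trans (hc 0 le_rfl) (by omega)
  | succ n ih =>
    rw [sum_range_succ]
    have h1 := ih fun i hi => hc i (by omega)
    have h2 : c (n + 1) * B ^ (n + 1) ≤ C * B ^ (n + 1) :=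
      Nat.mul_le_mul_right _ (hc _ le_rfl)
    have h3 : 2 * C * B ^ n ≤ C * B ^ (n + 1) := by
      rw [pow_succ]
      calc 2 * C * B ^ n = C * (B ^ n * 2) := by ring
        _ ≤ C * (B ^ n * B) := by gcongr
    calc _ ≤ C * B ^ (n + 1) + C * B ^ (n + 1) := by omega
      _ = _ := by ring

theorem lt_le (r N : ℕ) (G : ℕ → ℕ) (hG : ∀ i < N, G i < r) (i : ℕ) : lt N G i ≤ 2 * r + 2 := by
  unfold lt
  split_ifs with h1 h2
  · have := hG i h1; omega
  · omega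
  · omega

theorem sh_le {F : ℕ → ℕ} {C : ℕ} (h : ∀ i, F i ≤ C) (s i : ℕ) : sh s F i ≤ C := by
  unfold sh
  split_ifs
  · exact h _
  · omega

theorem sh_zero {F : ℕ → ℕ} {E : ℕ} (h : ∀ i, E ≤ i → F i = 0) (s i : ℕ) (hi : s + E ≤ i) :
    sh s F i = 0 := by
  unfold sh
  split_ifs
  · exact h _ (by omega)
  · rfl

theorem top_le (r k N m : ℕ) (G : ℕ → ℕ) (hG : ∀ i < N, G i < r) (j : ℕ) :
    top r k N m G j ≤ 20 * (2 * r + 2) ^ 4 := by
  have hF := lt_le r N G hG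
  unfold top
  obtain ⟨l, hl⟩ : ∃ l, l = 2 * r + 2 := ⟨_, rfl⟩
  rw [← hl] at hF ⊢
  have l1 : 1 ≤ l := by omega
  have p0 : 1 ≤ l ^ 4 := Nat.one_le_pow _ _ l1
  have p1 : l ≤ l ^ 4 := by simpa using Nat.pow_le_pow_right l1 (show 1 ≤ 4 by omega)
  have p2 : l ^ 2 ≤ l ^ 4 := Nat.pow_le_pow_right l1 (by omega)
  have p3 : l ^ 3 ≤ l ^ 4 := Nat.pow_le_pow_right l1 (by omega)
  have hw : sh m (fun i => wv l (lt N G i) (sh k (lt N G) i) (sh 1 (lt N G) i)
      (sh (k + 1) (lt N G) i)) j ≤ 8 * l ^ 4 := by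
    refine sh_le (fun i => ?_) _ _
    unfold wv
    have a1 : l ^ 2 * lt N G i ≤ l ^ 2 * l := Nat.mul_le_mul_left _ (hF i)
    have a2 : l ^ 3 * sh k (lt N G) i ≤ l ^ 3 * l := Nat.mul_le_mul_left _ (sh_le hF k i)
    have a3 := sh_le hF 1 i
    have a4 : l * sh (k + 1) (lt N G) i ≤ l * l := Nat.mul_le_mul_left _ (sh_le hF _ i)
    have b1 : l ^ 2 * l = l ^ 3 := by ring
    have b2 : l ^ 3 * l = l ^ 4 := by ring
    have b4 : l * l = l ^ 2 := by ring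
    omega
  have i1 : ∀ (P : Prop) [Decidable P] (c : ℕ), (if P then c else 0) ≤ c := fun P _ c => by
    split_ifs <;> omega
  have c1 := i1 (j = 2 * N + 1) 1
  have c2 := i1 (j = 2 * m + 1) 1
  have c3 := i1 (j = 2 * m) (l ^ 2)
  have c4 := i1 (j = 2 * m + k) (2 * l ^ 3)
  have c5 := i1 (j = 2 * m + k + 1) (2 * l)
  have c6 := i1 (j = 2 * m + 2 * k) (l ^ 4)
  have c7 := i1 (j = 2 * m + 2 * k + 1) (l ^ 2)
  omega

theorem top_sum (B r k N m D : ℕ) (G : ℕ → ℕ) (hD : 2 * m + 2 * k + 2 * N + 2 ≤ D) :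
    ∑ j ∈ range D, top r k N m G j * B ^ j +
      ((2 * r + 2) ^ 2 + B) * (∑ i ∈ range (N + 1), lt N G i * B ^ i) ^ 2 =
      ((2 * r + 2) ^ 2 + B) * num B r k N m G ^ 2 + B ^ (2 * N + 1) := by
  have hF : ∀ i, N + 1 ≤ i → lt N G i = 0 := fun i hi => by
    unfold lt; rw [if_neg (by omega), if_neg (by omega)]
  unfold top num
  obtain ⟨l, hl⟩ : ∃ l, l = 2 * r + 2 := ⟨_, rfl⟩
  rw [← hl]
  simp only [add_mul, sum_add_distrib]
  rw [ite_sum B _ _ D (by omega), ite_sum B _ _ D (by omega), ite_sum B _ _ D (by omega),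
    ite_sum B _ _ D (by omega), ite_sum B _ _ D (by omega), ite_sum B _ _ D (by omega),
    ite_sum B _ _ D (by omega)]
  rw [sh_sum B m (k + 1 + (N + 1)) D _ (fun i hi => by
    unfold wv
    rw [hF i (by omega), sh_zero hF k i (by omega), sh_zero hF 1 i (by omega),
      sh_zero hF (k + 1) i (by omega)]; simp) (by omega)]
  have s0 := sh_sum B 0 (N + 1) (k + 1 + (N + 1)) _ hF (by omega)
  have s1 := sh_sum B k (N + 1) (k + 1 + (N + 1)) _ hF (by omega)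
  have s2 := sh_sum B 1 (N + 1) (k + 1 + (N + 1)) _ hF (by omega)
  have s3 := sh_sum B (k + 1) (N + 1) (k + 1 + (N + 1)) _ hF (by omega)
  have e : ∑ i ∈ range (k + 1 + (N + 1)), wv l (lt N G i) (sh k (lt N G) i) (sh 1 (lt N G) i)
      (sh (k + 1) (lt N G) i) * B ^ i =
      2 * (l ^ 2 * ∑ i ∈ range (k + 1 + (N + 1)), sh 0 (lt N G) i * B ^ i +
        l ^ 3 * ∑ i ∈ range (k + 1 + (N + 1)), sh k (lt N G) i * B ^ i +
        ∑ i ∈ range (k + 1 + (N + 1)), sh 1 (lt N G) i * B ^ i +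
        l * ∑ i ∈ range (k + 1 + (N + 1)), sh (k + 1) (lt N G) i * B ^ i) := by
    simp only [mul_sum, ← sum_add_distrib]
    refine sum_congr rfl fun i _ => ?_
    have : sh 0 (lt N G) i = lt N G i := by simp [sh]
    rw [this]; unfold wv; ring
  rw [e, s0, s1, s2, s3]
  ring

theorem digs : StmtDIG := by
  intro B r k N m G hB hN hG j hj
  obtain ⟨j, rfl⟩ : ∃ i, j = 2 * N + 1 + i := ⟨j - (2 * N + 1), by omega⟩
  obtain ⟨n, rfl⟩ : ∃ n, N = n + 1 := ⟨N - 1, by omega⟩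
  have hT := top_le r k (n + 1) m G hG
  have hS := top_sum B r k (n + 1) m (2 * (n + 1) + 1 + (2 * m + 2 * k + j + 1)) G (by omega)
  have hF := lt_le r (n + 1) G hG
  obtain ⟨l, hl⟩ : ∃ l, l = 2 * r + 2 := ⟨_, rfl⟩
  rw [← hl] at hB hT hS hF ⊢
  have l1 : 2 ≤ l := by omega
  have p0 : 1 ≤ l ^ 4 := Nat.one_le_pow _ _ (by omega)
  have p1 : l ≤ l ^ 4 := by
    simpa using Nat.pow_le_pow_right (show 0 < l by omega) (show 1 ≤ 4 by omega)
  have p2 : l ^ 2 ≤ l ^ 4 := Nat.pow_le_pow_right (by omega) (by omega)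
  have B2 : 2 ≤ B := by omega
  have hg0 := geo_le B2 l (lt (n + 1) G) n fun i _ => hF i
  have hg : ∑ i ∈ range (n + 1 + 1), lt (n + 1) G i * B ^ i =
      ∑ i ∈ range (n + 1), lt (n + 1) G i * B ^ i + B ^ (n + 1) := by
    rw [sum_range_succ]; simp [lt]
  rw [hg] at hS
  generalize ∑ i ∈ range (n + 1), lt (n + 1) G i * B ^ i = g at hS hg0
  have hY : (l ^ 2 + B) * num B r k (n + 1) m G ^ 2 =
      ∑ i ∈ range (2 * (n + 1) + 1 + (2 * m + 2 * k + j + 1)), top r k (n + 1) m G i * B ^ i +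
        (l ^ 2 * B ^ (2 * (n + 1)) + (l ^ 2 + B) * (2 * B ^ (n + 1) * g + g ^ 2)) := by
    have : (l ^ 2 + B) * (g + B ^ (n + 1)) ^ 2 =
        (l ^ 2 * B ^ (2 * (n + 1)) + (l ^ 2 + B) * (2 * B ^ (n + 1) * g + g ^ 2)) +
          B ^ (2 * (n + 1) + 1) := by ring
    omega
  rw [hY]
  refine dig_high _ _ _ _ (fun i => by have := hT i; omega) ?_ j (by omega)
  have h1 := geo_le B2 _ (top r k (n + 1) m G) (2 * (n + 1)) fun i _ => hT i
  have hP : 0 < B ^ (2 * (n + 1)) := pow_pos (by omega) _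
  have g1 : g ≤ B ^ (n + 1) := by
    refine hg0.trans ?_
    rw [pow_succ, mul_comm (B ^ n)]
    exact Nat.mul_le_mul_right _ (by omega)
  have h2 : (l ^ 2 + B) * (2 * B ^ (n + 1) * g + g ^ 2) ≤ 12 * l * B ^ (2 * (n + 1)) := by
    calc (l ^ 2 + B) * (2 * B ^ (n + 1) * g + g ^ 2)
        = (l ^ 2 + B) * ((2 * B ^ (n + 1) + g) * g) := by ring
      _ ≤ (2 * B) * ((2 * B ^ (n + 1) + B ^ (n + 1)) * (2 * l * B ^ n)) := by
          gcongr
          omega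
      _ = 12 * l * B ^ (2 * (n + 1)) := by ring
  have h3 : l ^ 2 * B ^ (2 * (n + 1)) ≤ l ^ 4 * B ^ (2 * (n + 1)) := Nat.mul_le_mul_right _ p2
  have h4 : 12 * l * B ^ (2 * (n + 1)) ≤ 12 * l ^ 4 * B ^ (2 * (n + 1)) := by gcongr
  have h5 : 100 * l ^ 4 * B ^ (2 * (n + 1)) ≤ B ^ (2 * (n + 1) + 1) := by
    rw [pow_succ B, mul_comm (B ^ _)]
    exact Nat.mul_le_mul_right _ hB
  have h6 : 0 < l ^ 4 * B ^ (2 * (n + 1)) := Nat.mul_pos (by omega) hP
  have e1 : 2 * (20 * l ^ 4) * B ^ (2 * (n + 1)) = 40 * (l ^ 4 * B ^ (2 * (n + 1))) := by ring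
  have e2 : 12 * l ^ 4 * B ^ (2 * (n + 1)) = 12 * (l ^ 4 * B ^ (2 * (n + 1))) := by ring
  have e3 : 100 * l ^ 4 * B ^ (2 * (n + 1)) = 100 * (l ^ 4 * B ^ (2 * (n + 1))) := by ring
  omega

end Pool.Agent.MP_fed7c7_lc.H15
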